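import Pool.Agent.helper76.LP.Defs3
import Pool.Agent.helper54.QR.GB
import Pool.Agent.helper58.QR.GA

/-! # Project FQ, module SF: number theory of the case `-1 ∈ Pl` -/

namespace Pool.Agent.helper76.LP

open Finset

theorem SF_not (D : ℕ) [NeZero D] (L : List ℕ) (hL : L.toFinset = D.primeFactors)
    (h : (-1 : (ZMod D)ˣ) ∈ Pl (Gam D) L) (r : ℕ) (hr : r ∣ D) (hr2 : 2 < r)
    (h2 : ∀ q, q.Prime → q ∣ D → r ∣ D / q) : False := by
  have h1 := Pl_Gam_cast D r hr L (by
    intro q hq
    have hq1 : q ∈ D.primeFactors := by rw [← hL]; exact List.mem_toFinset.2 hq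
    exact ⟨Nat.dvd_of_mem_primeFactors hq1,
      h2 q (Nat.prime_of_mem_primeFactors hq1) (Nat.dvd_of_mem_primeFactors hq1)⟩) (-1) h
  have h3 : ((-1 : (ZMod D)ˣ) : ZMod D) = -1 := by simp
  rw [h3, map_neg, map_one] at h1
  have h4 : ((2 : ℕ) : ZMod r) = 0 := by
    have : (1 : ZMod r) + 1 = 0 := by
      nth_rewrite 1 [← h1]; ring
    push_cast
    rw [← this]; norm_num
  rw [ZMod.natCast_eq_zero_iff] at h4
  have := Nat.le_of_dvd (by norm_num) h4
  omega

theorem sqf_of_neg_one (D : ℕ) [NeZero D] (L : List ℕ) (hL : L.toFinset = D.primeFactors)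
    (h : (-1 : (ZMod D)ˣ) ∈ Pl (Gam D) L) :
    (∀ p, p.Prime → Odd p → ¬ p ^ 2 ∣ D) ∧ ¬ 8 ∣ D := by
  constructor
  · intro p hp hodd hpD
    have hpd : p ∣ D := (dvd_pow_self p (by norm_num)).trans hpD
    have hp2 : 2 < p := by
      have := hp.two_le
      obtain ⟨k, hk⟩ := hodd
      omega
    refine SF_not D L hL h p hpd hp2 ?_
    rintro q hq ⟨k, hk⟩
    have hk2 : D / q = k := by rw [hk, Nat.mul_div_cancel_left _ hq.pos]
    rw [hk2]
    by_cases hqp : q = p
    · subst hqp
      rw [hk, pow_two] at hpD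
      exact Nat.dvd_of_mul_dvd_mul_left hq.pos hpD
    · rw [hk] at hpd
      exact ((Nat.coprime_primes hp hq).2 (Ne.symm hqp)).dvd_of_dvd_mul_left hpd
  · intro h8
    refine SF_not D L hL h 4 ((by norm_num : 4 ∣ 8).trans h8) (by norm_num) ?_
    rintro q hq ⟨k, hk⟩
    have hk2 : D / q = k := by rw [hk, Nat.mul_div_cancel_left _ hq.pos]
    rw [hk2]
    by_cases hq2 : q = 2
    · subst hq2; omega
    · have hcop : Nat.Coprime 4 q := by
        have : Nat.Coprime 2 q := (Nat.coprime_primes Nat.prime_two hq).2 (Ne.symm hq2)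
        exact Nat.Coprime.pow_left 2 this
      have h4 : 4 ∣ q * k := by
        rw [← hk]; exact (by norm_num : 4 ∣ 8).trans h8
      exact hcop.dvd_of_dvd_mul_left h4

theorem SF_fact (D : ℕ) [NeZero D] (hD : D % 4 ≠ 2)
    (h : (∀ p, p.Prime → Odd p → ¬ p ^ 2 ∣ D) ∧ ¬ 8 ∣ D) (p : ℕ) (hp : p ∈ D.primeFactors) :
    D.factorization p = if p = 2 then 2 else 1 := by
  have hD0 : D ≠ 0 := NeZero.ne D
  have hpp := Nat.prime_of_mem_primeFactors hp
  have hpd := Nat.dvd_of_mem_primeFactors hp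
  split_ifs with h2
  · subst h2
    have h4 : 2 ^ 2 ∣ D := by
      obtain ⟨k, hk⟩ := hpd
      norm_num
      omega
    have h5 := (hpp.pow_dvd_iff_le_factorization hD0).1 h4
    have h6 : ¬ 3 ≤ D.factorization 2 := by
      intro hc
      have := (hpp.pow_dvd_iff_le_factorization hD0).2 hc
      norm_num at this
      exact h.2 this
    omega
  · have h5 : 1 ≤ D.factorization p := by
      apply (hpp.pow_dvd_iff_le_factorization hD0).1
      rwa [pow_one]
    have h6 : ¬ 2 ≤ D.factorization p := by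
      intro hc
      exact h.1 p hpp (hpp.odd_of_ne_two h2) ((hpp.pow_dvd_iff_le_factorization hD0).2 hc)
    omega

/-- `D` is the product of the corresponding elements of `Λ` -/
theorem eq_prod_lam (D : ℕ) [NeZero D] (hD : D % 4 ≠ 2)
    (h : (∀ p, p.Prime → Odd p → ¬ p ^ 2 ∣ D) ∧ ¬ 8 ∣ D) :
    D = ∏ p ∈ D.primeFactors, (if p = 2 then 4 else p) ∧
      D.totient = ∏ p ∈ D.primeFactors, Nat.card (Gam D p) := by
  have hD0 : D ≠ 0 := NeZero.ne D
  constructor
  · conv_lhs => rw [← Nat.prod_factorization_pow_eq_self hD0]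
    rw [Finsupp.prod, Nat.support_factorization]
    apply Finset.prod_congr rfl
    intro p hp
    rw [SF_fact D hD h p hp]
    split_ifs with h2
    · rw [h2]; norm_num
    · rw [pow_one]
  · rw [Nat.totient_eq_prod_factorization hD0, Finsupp.prod, Nat.support_factorization]
    apply Finset.prod_congr rfl
    intro p hp
    have hpp := Nat.prime_of_mem_primeFactors hp
    have hpd := Nat.dvd_of_mem_primeFactors hp
    have hf := SF_fact D hD h p hp
    rw [card_Gam D p hpp hpd, hf]
    by_cases h2 : p = 2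
    · subst h2
      rw [if_pos rfl] at hf
      have : 2 ^ 2 ∣ D := (hpp.pow_dvd_iff_le_factorization hD0).2 (by rw [hf])
      rw [if_pos rfl, if_pos this]
      norm_num
    · rw [if_neg h2] at hf
      have : ¬ p ^ 2 ∣ D := h.1 p hpp (hpp.odd_of_ne_two h2)
      rw [if_neg h2, if_neg this]
      simp

end Pool.Agent.helper76.LP
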