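import Pool.Agent.helper6.FQ.XO

/-! # Project FQ, module XA: exceptional classes of levels 12, 15, 20, 21, 28 -/

namespace Pool.Agent.helper76.LP

open Finset

theorem exo12 : Exo 12 7 :=
  XO_exo 12 7 ![1, 4, 9, 10] (by decide) (by decide +kernel) (by decide +kernel)

theorem exo15 : Exo 15 11 :=
  XO_exo 15 11 ![1, 6, 10, 13] (by decide) (by decide +kernel) (by decide +kernel)

theorem exo20 : Exo 20 11 :=
  XO_exo 20 11 ![1, 4, 17, 18] (by decide) (by decide +kernel) (by decide +kernel)

theorem exo21 : Exo 21 8 :=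
  XO_exo 21 8 ![1, 4, 18, 19] (by decide) (by decide +kernel) (by decide +kernel)

theorem exo28 : Exo 28 15 :=
  XO_exo 28 15 ![1, 9, 21, 25] (by decide) (by decide +kernel) (by decide +kernel)

end Pool.Agent.helper76.LP
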