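import Pool.Agent.helper6.FQ.XO

/-! # Project FQ, module XB: exceptional classes of levels 33 and 39 -/

namespace Pool.Agent.helper76.LP

open Finset

/-- combination of six points -/
def XB_e (D : ℕ) (a : Fin 4 → ZMod D) (b : Fin 2 → ZMod D) (x : ZMod D) : ℤ := cnt a x - cnt b x

open Pool.Agent.helper34.DH in
theorem XB_cls (D : ℕ) [NeZero D] (a : Fin 4 → ZMod D) (b : Fin 2 → ZMod D) :
    cls D (XB_e D a b) = ∑ i, cl D (a i) - ∑ i, cl D (b i) := by
  unfold cls XB_e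
  simp_rw [sub_smul]
  rw [Finset.sum_sub_distrib, sum_cnt_smul, sum_cnt_smul]

open Pool.Agent.helper34.DH Pool.Agent.helper76.FV in
theorem XB_tate66 : TateM 66 (![1, 25, 44, 62] : Fin (2 * 1 + 2) → ZMod 66) :=
  XO_tateM 66 _ (by decide) (by decide +kernel)

open Pool.Agent.helper34.DH Pool.Agent.helper76.FV in
theorem XB_tate78 : TateM 78 (![1, 32, 61, 62] : Fin (2 * 1 + 2) → ZMod 78) :=
  XO_tateM 78 _ (by decide) (by decide +kernel)

open Pool.Agent.helper34.DH in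
theorem XB_cl (D k : ℕ) (hk : k < D) (x : ℚ) (hx : x * D = k) : cl D (k : ZMod D) = F x := by
  have hD : (D : ℚ) ≠ 0 := by
    have : 0 < D := by omega
    exact_mod_cast this.ne'
  unfold cl
  rw [ZMod.val_natCast, Nat.mod_eq_of_lt hk, ← hx]
  congr 1
  field_simp

open Pool.Agent.helper34.DH in
theorem exo33 : Exo 33 23 := by
  refine ⟨XB_e 33 ![1, 25, 22, 31] ![17, 29], XO_tateF 33 _ (by decide +kernel),
    by decide +kernel, ?_⟩
  have h1 := XO_cls_mem 66 _ XB_tate66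
  have h2 : cls 66 (cnt (![1, 25, 44, 62] : Fin (2 * 1 + 2) → ZMod 66)) =
      F (1 / 66) + F (25 / 66) + F (44 / 66) + F (62 / 66) := by
    have h3 : cls 66 (cnt (![1, 25, 44, 62] : Fin (2 * 1 + 2) → ZMod 66)) = _ :=
      sum_cnt_smul _ (cl 66)
    rw [h3, Fin.sum_univ_four]
    have e1 := XB_cl 66 1 (by norm_num) (1 / 66) (by norm_num)
    have e2 := XB_cl 66 25 (by norm_num) (25 / 66) (by norm_num)
    have e3 := XB_cl 66 44 (by norm_num) (44 / 66) (by norm_num)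
    have e4 := XB_cl 66 62 (by norm_num) (62 / 66) (by norm_num)
    rw [← e1, ← e2, ← e3, ← e4]
    rfl
  have h4 : cls 33 (XB_e 33 ![1, 25, 22, 31] ![17, 29]) =
      F (1 / 33) + F (25 / 33) + F (22 / 33) + F (31 / 33) - (F (17 / 33) + F (29 / 33)) := by
    rw [XB_cls, Fin.sum_univ_four, Fin.sum_univ_two]
    have e1 := XB_cl 33 1 (by norm_num) (1 / 33) (by norm_num)
    have e2 := XB_cl 33 25 (by norm_num) (25 / 33) (by norm_num)
    have e3 := XB_cl 33 22 (by norm_num) (22 / 33) (by norm_num)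
    have e4 := XB_cl 33 31 (by norm_num) (31 / 33) (by norm_num)
    have e5 := XB_cl 33 17 (by norm_num) (17 / 33) (by norm_num)
    have e6 := XB_cl 33 29 (by norm_num) (29 / 33) (by norm_num)
    rw [← e1, ← e2, ← e3, ← e4, ← e5, ← e6]
    rfl
  have d1 := dist_two (1 / 66)
  have d2 := dist_two (25 / 66)
  rw [show (1 / 66 + 1 / 2 : ℚ) = 17 / 33 by norm_num, show (2 * (1 / 66) : ℚ) = 1 / 33 by norm_num]
    at d1
  rw [show (25 / 66 + 1 / 2 : ℚ) = 29 / 33 by norm_num,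
    show (2 * (25 / 66) : ℚ) = 25 / 33 by norm_num] at d2
  rw [show (44 / 66 : ℚ) = 22 / 33 by norm_num, show (62 / 66 : ℚ) = 31 / 33 by norm_num] at h2
  have h5 : cls 33 (XB_e 33 ![1, 25, 22, 31] ![17, 29]) =
      cls 66 (cnt (![1, 25, 44, 62] : Fin (2 * 1 + 2) → ZMod 66)) - hh - hh := by
    have f1 : F (1 / 33) = F (1 / 66) + F (17 / 33) - hh := by rw [d1]; abel
    have f2 : F (25 / 33) = F (25 / 66) + F (29 / 33) - hh := by rw [d2]; abel
    rw [h4, h2, f1, f2]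
    abel
  have h6 : hh ∈ E1 := AddSubgroup.subset_closure (Or.inr rfl)
  rw [h5]
  exact E1.sub_mem (E1.sub_mem h1 h6) h6

open Pool.Agent.helper34.DH in
theorem exo39 : Exo 39 14 := by
  refine ⟨XB_e 39 ![1, 16, 22, 31] ![20, 11], XO_tateF 39 _ (by decide +kernel),
    by decide +kernel, ?_⟩
  have h1 := XO_cls_mem 78 _ XB_tate78
  have h2 : cls 78 (cnt (![1, 32, 61, 62] : Fin (2 * 1 + 2) → ZMod 78)) =
      F (1 / 78) + F (32 / 78) + F (61 / 78) + F (62 / 78) := by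
    have h3 : cls 78 (cnt (![1, 32, 61, 62] : Fin (2 * 1 + 2) → ZMod 78)) = _ :=
      sum_cnt_smul _ (cl 78)
    rw [h3, Fin.sum_univ_four]
    have e1 := XB_cl 78 1 (by norm_num) (1 / 78) (by norm_num)
    have e2 := XB_cl 78 32 (by norm_num) (32 / 78) (by norm_num)
    have e3 := XB_cl 78 61 (by norm_num) (61 / 78) (by norm_num)
    have e4 := XB_cl 78 62 (by norm_num) (62 / 78) (by norm_num)
    rw [← e1, ← e2, ← e3, ← e4]
    rfl
  have h4 : cls 39 (XB_e 39 ![1, 16, 22, 31] ![20, 11]) =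
      F (1 / 39) + F (16 / 39) + F (22 / 39) + F (31 / 39) - (F (20 / 39) + F (11 / 39)) := by
    rw [XB_cls, Fin.sum_univ_four, Fin.sum_univ_two]
    have e1 := XB_cl 39 1 (by norm_num) (1 / 39) (by norm_num)
    have e2 := XB_cl 39 16 (by norm_num) (16 / 39) (by norm_num)
    have e3 := XB_cl 39 22 (by norm_num) (22 / 39) (by norm_num)
    have e4 := XB_cl 39 31 (by norm_num) (31 / 39) (by norm_num)
    have e5 := XB_cl 39 20 (by norm_num) (20 / 39) (by norm_num)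
    have e6 := XB_cl 39 11 (by norm_num) (11 / 39) (by norm_num)
    rw [← e1, ← e2, ← e3, ← e4, ← e5, ← e6]
    rfl
  have d1 := dist_two (1 / 78)
  have d2 := dist_two (61 / 78)
  rw [show (1 / 78 + 1 / 2 : ℚ) = 20 / 39 by norm_num, show (2 * (1 / 78) : ℚ) = 1 / 39 by norm_num]
    at d1
  have g1 : F (61 / 78 + 1 / 2) = F (11 / 39) := F_congr ⟨1, by norm_num⟩
  have g2 : F (2 * (61 / 78)) = F (22 / 39) := F_congr ⟨1, by norm_num⟩
  rw [g1, g2] at d2
  rw [show (32 / 78 : ℚ) = 16 / 39 by norm_num, show (62 / 78 : ℚ) = 31 / 39 by norm_num] at h2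
  have h5 : cls 39 (XB_e 39 ![1, 16, 22, 31] ![20, 11]) =
      cls 78 (cnt (![1, 32, 61, 62] : Fin (2 * 1 + 2) → ZMod 78)) - hh - hh := by
    have f1 : F (1 / 39) = F (1 / 78) + F (20 / 39) - hh := by rw [d1]; abel
    have f2 : F (22 / 39) = F (61 / 78) + F (11 / 39) - hh := by rw [d2]; abel
    rw [h4, h2, f1, f2]
    abel
  have h6 : hh ∈ E1 := AddSubgroup.subset_closure (Or.inr rfl)
  rw [h5]
  exact E1.sub_mem (E1.sub_mem h1 h6) h6

end Pool.Agent.helper76.LP
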