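import Pool.Agent.helper76.LP.Defs3

/-! # Project FQ: exceptional classes, definition and general lemmas -/

namespace Pool.Agent.helper76.LP

open Finset

/-- an exceptional class of level `D`, odd at the unit `ν` -/
def Exo (D : ℕ) [NeZero D] (ν : ZMod D) : Prop :=
  ∃ e : ZMod D → ℤ, TateF (anti e) ∧ Odd (anti e 1 + anti e ν) ∧ cls D e ∈ E1

open Pool.Agent.helper76.FV in
theorem XO_tateM (N : ℕ) [NeZero N] (z : Fin (2 * 1 + 2) → ZMod N) (h0 : ∀ i, z i ≠ 0)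
    (h : ∀ t : ZMod N, Nat.Coprime t.val N → 2 * ∑ i, (t * z i).val = (2 * 1 + 2) * N) :
    TateM N z :=
  ⟨h0, fun t => h t (ZMod.val_coe_unit_coprime t)⟩

theorem XO_tateF (N : ℕ) [NeZero N] (f : ZMod N → ℤ)
    (h : ∀ t : ZMod N, Nat.Coprime t.val N → ∑ x, f x * saw N (t * x) = 0) :
    TateF f :=
  fun t => h t (ZMod.val_coe_unit_coprime t)

open Pool.Agent.helper34.DH Pool.Agent.helper76.FV in
theorem XO_cls_mem (N : ℕ) [NeZero N] (z : Fin (2 * 1 + 2) → ZMod N) (hT : TateM N z) :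
    cls N (cnt z) ∈ E1 := by
  have hN : 0 < N := Nat.pos_of_ne_zero (NeZero.ne N)
  have h1 : cls N (cnt z) = ∑ i, F (frac N z i) := sum_cnt_smul z (cl N)
  have h2 := mk_ptsQ (frac N z) (pts_ne_zero hN z hT.1)
  rw [h1, ← h2]
  exact AddSubgroup.subset_closure
    (Or.inl ⟨pts z, ⟨N, z, hN, (isTateFermat_iff N hN 1 z).2 hT, rfl⟩, rfl⟩)

open Pool.Agent.helper76.FV in
theorem XO_exo (N : ℕ) [NeZero N] (ν : ZMod N) (z : Fin (2 * 1 + 2) → ZMod N)
    (h0 : ∀ i, z i ≠ 0)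
    (h : ∀ t : ZMod N, Nat.Coprime t.val N → 2 * ∑ i, (t * z i).val = (2 * 1 + 2) * N)
    (hodd : Odd (anti (cnt z) 1 + anti (cnt z) ν)) : Exo N ν :=
  have hT := XO_tateM N z h0 h
  ⟨cnt z, tateF_anti N z hT, hodd, XO_cls_mem N z hT⟩

end Pool.Agent.helper76.LP
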